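import Pool.Agent.P8H81.LP.Defs

/-!
# Paley-Zygmund against Chebyshev, in finite volume (ZERO)
-/

set_option autoImplicit false
set_option linter.all false

open MeasureTheory ProbabilityTheory Filter Finset

namespace Pool.Agent.P8H7.LP

open Pool.Agent.P8H81.LP

theorem Wr_pos (N : ℕ) : ∀ (V : ℕ → (Fin 2 → ℤ) → ℝ) (x : Fin 2 → ℤ), 0 < Wr N V x := by
  induction N with
  | zero => intro V x; simp [Wr]
  | succ N ih =>
    intro V x
    unfold Wr
    apply mul_pos (by norm_num)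
    apply Finset.sum_pos
    · intro e _
      exact mul_pos (Real.exp_pos _) (ih _ _)
    · exact Finset.univ_nonempty

theorem W_pos (β : ℝ) (N : ℕ) (x : Fin 2 → ℤ) (w : ℕ → (Fin 2 → ℤ) → ℝ) : 0 < W β N x w :=
  Wr_pos _ _ _

theorem isProb {hc : (Fin 2 → ℤ) → ℝ} {μ : Measure ((Fin 2 → ℤ) → ℝ)} (h : Good hc μ) :
    IsProbabilityMeasure (PP μ) := by
  have := h.prob
  unfold PP; infer_instance

/-- Paley-Zygmund -/
theorem paley {Ω : Type} [MeasurableSpace Ω] (P : Measure Ω) [IsProbabilityMeasure P] (X : Ω → ℝ)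
    (hX : Measurable X) (hpos : ∀ w, 0 < X w) (h2 : MemLp X 2 P) (h1 : ∫ w, X w ∂P = 1) (S : ℝ)
    (hS : 0 < S) (hS2 : ∫ w, (X w) ^ 2 ∂P ≤ S) : 1 / (4 * S) ≤ P.real {w | 1 / 2 ≤ X w} := by
  have hA : MeasurableSet {w | 1 / 2 ≤ X w} := measurableSet_le measurable_const hX
  have hi : Integrable X P := h2.integrable (by norm_num)
  have hi2 : Integrable (fun w => (X w) ^ 2) P := h2.integrable_sq
  set t : ℝ := 1 / (2 * S) with ht
  have htpos : 0 < t := by positivity
  have hpt : ∀ w, X w ≤ 1 / 2 + (t * (X w) ^ 2 + Set.indicator {w | 1 / 2 ≤ X w} (fun _ => (1 : ℝ)) w / t) / 2 := by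
    intro w
    by_cases hw : 1 / 2 ≤ X w
    · have : Set.indicator {w | 1 / 2 ≤ X w} (fun _ => (1 : ℝ)) w = 1 := by
        rw [Set.indicator_of_mem]; exact hw
      rw [this]
      have h3 : X w ≤ (t * (X w) ^ 2 + 1 / t) / 2 := by
        have h4 : 0 ≤ (t * X w - 1) ^ 2 / t := by positivity
        have h5 : (t * X w - 1) ^ 2 / t = t * (X w) ^ 2 - 2 * X w + 1 / t := by
          field_simp
          ring
        linarith
      linarith
    · have : Set.indicator {w | 1 / 2 ≤ X w} (fun _ => (1 : ℝ)) w = 0 := by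
        rw [Set.indicator_of_notMem]; exact hw
      rw [this, zero_div]
      push Not at hw
      have : 0 ≤ t * (X w) ^ 2 := by positivity
      linarith
  have hind : Integrable (Set.indicator {w | 1 / 2 ≤ X w} (fun _ => (1 : ℝ))) P :=
    (integrable_const (1 : ℝ)).indicator hA
  have hF : Integrable (fun w => t * (X w) ^ 2) P := hi2.const_mul t
  have hG : Integrable (fun w => Set.indicator {w | 1 / 2 ≤ X w} (fun _ => (1 : ℝ)) w / t) P :=
    hind.div_const t
  have hFG : Integrable (fun w => (t * (X w) ^ 2 +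
      Set.indicator {w | 1 / 2 ≤ X w} (fun _ => (1 : ℝ)) w / t) / 2) P := (hF.add hG).div_const 2
  have hall : Integrable (fun w => 1 / 2 + (t * (X w) ^ 2 +
      Set.indicator {w | 1 / 2 ≤ X w} (fun _ => (1 : ℝ)) w / t) / 2) P :=
    (integrable_const (1 / 2 : ℝ)).add hFG
  have hint := integral_mono hi hall hpt
  have e1 : ∫ w, (1 / 2 + (t * (X w) ^ 2 + Set.indicator {w | 1 / 2 ≤ X w} (fun _ => (1 : ℝ)) w / t) / 2) ∂P =
      1 / 2 + (t * ∫ w, (X w) ^ 2 ∂P + P.real {w | 1 / 2 ≤ X w} / t) / 2 := by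
    have a1 : ∫ w, (t * (X w) ^ 2 + Set.indicator {w | 1 / 2 ≤ X w} (fun _ => (1 : ℝ)) w / t) ∂P =
        t * ∫ w, (X w) ^ 2 ∂P + P.real {w | 1 / 2 ≤ X w} / t := by
      rw [integral_add hF hG, integral_const_mul, integral_div, integral_indicator_const _ hA]
      simp
    have a2 : ∫ w, ((t * (X w) ^ 2 + Set.indicator {w | 1 / 2 ≤ X w} (fun _ => (1 : ℝ)) w / t) / 2) ∂P =
        (t * ∫ w, (X w) ^ 2 ∂P + P.real {w | 1 / 2 ≤ X w} / t) / 2 := by
      rw [integral_div, a1]
    rw [integral_add (integrable_const (1 / 2 : ℝ)) hFG, a2]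
    simp
  have hint' : (1 : ℝ) ≤ 1 / 2 + (t * ∫ w, (X w) ^ 2 ∂P + P.real {w | 1 / 2 ≤ X w} / t) / 2 := by
    have := hint
    rw [e1, h1] at this
    exact this
  have h6 : t * ∫ w, (X w) ^ 2 ∂P ≤ 1 / 2 := by
    calc t * ∫ w, (X w) ^ 2 ∂P ≤ t * S := by gcongr
      _ = 1 / 2 := by rw [ht]; field_simp
  have h7 : 1 / 2 ≤ P.real {w | 1 / 2 ≤ X w} / t := by linarith
  rw [le_div_iff₀ htpos] at h7
  calc 1 / (4 * S) = 1 / 2 * t := by rw [ht]; field_simp; norm_num
    _ ≤ _ := h7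

theorem taskZero : TaskZero := by
  intro hInt hc μ good β C hβ hC N hN hmom hvar
  have hPP := isProb good
  by_contra hneg
  push Not at hneg
  obtain ⟨hm, hW, hone, hL⟩ := hInt μ good β N
  have hNpos : (0 : ℝ) < N := by exact_mod_cast hN
  have hpz := paley (PP μ) (W β N 0) (hm 0) (fun w => W_pos _ _ _ _) (hW 0) (hone 0) 2
    (by norm_num) hmom
  set a := ∫ w, LW β N w ∂(PP μ) with ha
  set s : ℝ := √(8 * C * N) with hs
  have hspos : 0 < s := Real.sqrt_pos.mpr (by positivity)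
  have hss : s ^ 2 = 8 * C * N := Real.sq_sqrt (by positivity)
  set c : ℝ := -a - Real.log 2 with hc'
  have hcs : s < c := by
    rw [hc']
    linarith
  have hcpos : 0 < c := by linarith
  have hcheb := meas_ge_le_variance_div_sq hL hcpos
  have hsub : {w | 1 / 2 ≤ W β N 0 w} ⊆ {w | c ≤ |LW β N w - ∫ w, LW β N w ∂(PP μ)|} := by
    intro w hw
    simp only [Set.mem_setOf_eq] at hw ⊢
    rw [← ha]
    have h5 : -Real.log 2 ≤ LW β N w := by
      unfold LW
      rw [← Real.log_inv]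
      apply Real.log_le_log (by norm_num)
      rw [← one_div]; exact hw
    refine le_trans ?_ (le_abs_self _)
    linarith
  have h6 : (PP μ).real {w | 1 / 2 ≤ W β N 0 w} ≤ variance (LW β N) (PP μ) / c ^ 2 := by
    have h7 : (PP μ) {w | 1 / 2 ≤ W β N 0 w} ≤ ENNReal.ofReal (variance (LW β N) (PP μ) / c ^ 2) :=
      (measure_mono hsub).trans hcheb
    unfold Measure.real
    apply ENNReal.toReal_le_of_le_ofReal _ h7
    exact div_nonneg (variance_nonneg _ _) (by positivity)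
  have h8 : variance (LW β N) (PP μ) / c ^ 2 ≤ C * N / c ^ 2 := by
    gcongr
  have h9 : 1 / (4 * 2) ≤ C * N / c ^ 2 := hpz.trans (h6.trans h8)
  rw [div_le_div_iff₀ (by norm_num) (by positivity)] at h9
  have h10 : s ^ 2 < c ^ 2 := by
    apply pow_lt_pow_left₀ hcs hspos.le (by norm_num)
  linarith

end Pool.Agent.P8H7.LP
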